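import Mathlib

/-!
# In a pi-regular ring every element has a regular power with exponent at least two
-/

namespace Pool.Agent.Results.MP_59f064_al.PowersRegular

/-- von Neumann regular element: `a = a x a` for some `x`. -/
def IsRegularElem {R : Type*} [Ring R] (a : R) : Prop := ∃ x : R, a = a * x * a

/-- `R` is pi-regular: every element has a positive power that is von Neumann regular. -/
def IsPiRegular (R : Type*) [Ring R] : Prop := ∀ a : R, ∃ n : ℕ, 1 ≤ n ∧ IsRegularElem (a ^ n)

/-- In a pi-regular ring, for every element `a` (regular or not) and every `m` there is `k ≥ m`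
such that `a ^ k` is regular. In particular there is no pi-regular ring with a regular element `a`
all of whose powers `a ^ k`, `k ≥ 2`, are not regular. -/
theorem result (R : Type*) [Ring R] (hR : IsPiRegular R) (a : R) (m : ℕ) :
    ∃ k : ℕ, m ≤ k ∧ IsRegularElem (a ^ k) := by
  obtain ⟨n, hn, h⟩ := hR (a ^ m)
  refine ⟨m * n, Nat.le_mul_of_pos_right m hn, ?_⟩
  rwa [pow_mul]

end Pool.Agent.Results.MP_59f064_al.PowersRegular
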